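import Pool.Agent.Y803.LVR.Cont

/-!
# Lipschitz-volume rigidity fails for one torus along a continuum of spaces

Over one Lipschitz torus `Y ⊂ ℝ⁸` with its intrinsic metric there is, for every number
`1 < a ≤ 11/10`, an integral current space `X a` with a 1-Lipschitz bijection `f a : X a → Y` which
satisfies all hypotheses of Lipschitz-volume rigidity and whose inverse has Lipschitz constant
exactly `a`; no two of the spaces `X a` are isometric, and none is isometric to `Y`.
-/

set_option autoImplicit false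

open scoped NNReal

namespace Pool.Agent.Results.MP_f51a17_gt.ContinuumOfSpaces

open Pool.Agent.W674.LVR

/-- **Rigidity fails for a continuum of spaces over one manifold, arbitrarily close to isometry.**
There is a compact connected oriented 2-dimensional Lipschitz manifold `Y` without boundary in `ℝ⁸`
(with its intrinsic metric, `M` is this structure), with fundamental current `TY`, and for every
`a` with `1 < a ≤ 11/10` a 2-dimensional integral current space `(X a, TX a)` and a bijection
`f a : X a → Y` such that `f a` is 1-Lipschitz, `f_# TX = TY`, `M(∂TX) ≤ M(∂TY)`, `M(TX) ≤ M(TY)`,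
the inverse of `f a` is `K`-Lipschitz exactly for `K ≥ a`, `f a` is not an isometry and `X a` is not
isometric to `Y`; moreover `X a` and `X b` are not isometric if `a ≠ b`. -/
theorem result : ∃ (Y : Type) (_ : MetricSpace Y) (_ : MeasurableSpace Y) (_ : BorelSpace Y)
    (M : ClosedLipschitzSubmanifold 2 8 Y) (TY : Fnl 2 Y),
    IsFundamental M TY ∧ IsIntegral TY ∧
    ∃ (X : {a : ℝ≥0 // 1 < a ∧ a ≤ 11 / 10} → Type) (_ : ∀ a, MetricSpace (X a))
      (_ : ∀ a, MeasurableSpace (X a)) (_ : ∀ a, BorelSpace (X a)) (TX : ∀ a, Fnl 2 (X a))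
      (f : ∀ a, X a → Y),
      (∀ a, IsIntegralCurrentSpace (X a) (TX a) ∧ LipschitzWith 1 (f a) ∧
        Function.Bijective (f a) ∧ (∀ K : ℝ≥0, AntilipschitzWith K (f a) ↔ a.1 ≤ K) ∧
        Same (push (f a) (TX a)) TY ∧ mass (boundary (TX a)) ≤ mass (boundary TY) ∧
        mass (TX a) ≤ mass TY ∧ ¬ Isometry (f a) ∧ IsEmpty (X a ≃ᵢ Y)) ∧
      ∀ a b, a ≠ b → IsEmpty (X a ≃ᵢ X b) := by
  refine ⟨Y803.LVR.Y, inferInstance, inferInstance, inferInstance, torus Ex.dat, cur (PY Ex.dat),
    isFundamental_cur Ex.dat, isIntegral_cur (tp_Y Ex.dat), Y803.LVR.X, inferInstance,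
    inferInstance, inferInstance, fun a => cur (PX (Y803.LVR.datA a)), Y803.LVR.f,
    fun a => ⟨isIntegralCurrentSpace_cur (tp_X (Y803.LVR.datA a)), Y803.LVR.f_lip a,
      Y803.LVR.f_bij a, Y803.LVR.f_anti a, fun f π _ _ => rfl, ?_, Y803.LVR.mass_X a,
      Y803.LVR.f_not a, Y803.LVR.not_isometric_Y a⟩,
    fun a b hab => Y803.LVR.not_isometric hab⟩
  rw [mass_boundary (tp_X (Y803.LVR.datA a))]
  exact bot_le

end Pool.Agent.Results.MP_f51a17_gt.ContinuumOfSpaces
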